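import Pool.Agent.H596Z.Asd.Flat
import Pool.Agent.H596Z.Emb.Ops
import Pool.Agent.H596Z.Emb.Tree

/-!
The embedding defined by a family of homogeneous unitaries.
-/

set_option autoImplicit false
set_option linter.unusedSectionVars false

namespace Pool.Agent.H596Z.Asd

open scoped InnerProductSpace ENNReal
open Pool.Agent.H812R3.KP Pool.Agent.H596Z.Roe Pool.Agent.H596Z.Emb Equiv

theorem ext_dl {Z Y : Type} {A A' : L2 Z →L[ℂ] L2 Y} (h : ∀ z, A (dl z) = A' (dl z)) : A = A' := by
  ext ξ : 1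
  have h1 := (hasSum_dl ξ).mapL A
  have h2 := (hasSum_dl ξ).mapL A'
  simp only [map_smul, h] at h1 h2
  exact h1.unique h2

open Classical in
theorem exists_glue {Y I : Type} (κ1 κ2 : Y → I) (S : I → B Y) {c : ℝ} (hc : 0 ≤ c)
    (hS : ∀ i, ‖S i‖ ≤ c) : ∃ T : B Y, ‖T‖ ≤ c ∧
      ∀ y y', ent T y y' = if κ1 y = κ2 y' then ent (S (κ1 y)) y y' else 0 := by
  let f : L2 Y → Y → ℂ := fun ξ y => (S (κ1 y) (cut {z | κ2 z = κ1 y} ξ)) y
  have hf : ∀ (ξ : L2 Y) (s : Finset Y), ∑ y ∈ s, ‖f ξ y‖ ^ 2 ≤ (c * ‖ξ‖) ^ 2 := by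
    intro ξ s
    rw [← Finset.sum_fiberwise_of_maps_to (s := s) (t := s.image κ1) (g := κ1)
      (fun x hx => Finset.mem_image_of_mem _ hx)]
    calc ∑ j ∈ s.image κ1, ∑ x ∈ s with κ1 x = j, ‖f ξ x‖ ^ 2
        ≤ ∑ j ∈ s.image κ1, c ^ 2 * ‖cut {x | κ2 x = j} ξ‖ ^ 2 := by
          refine Finset.sum_le_sum fun j _ => ?_
          have h1 : ∑ x ∈ s with κ1 x = j, ‖f ξ x‖ ^ 2
              = ∑ x ∈ s with κ1 x = j, ‖(S j (cut {x | κ2 x = j} ξ)) x‖ ^ 2 := by
            refine Finset.sum_congr rfl fun x hx => ?_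
            rw [Finset.mem_filter] at hx
            simp only [f, hx.2]
          rw [h1]
          refine (sum_sq_le _ _).trans ?_
          rw [← mul_pow]
          refine pow_le_pow_left₀ (norm_nonneg _) (((S j).le_opNorm _).trans ?_) 2
          gcongr
          exact hS j
      _ = c ^ 2 * ∑ j ∈ s.image κ1, ‖cut {x | κ2 x = j} ξ‖ ^ 2 := by rw [Finset.mul_sum]
      _ ≤ c ^ 2 * ‖ξ‖ ^ 2 := by
          gcongr
          exact sum_cut_le κ2 _ ξ
      _ = (c * ‖ξ‖) ^ 2 := by ring
  let L : L2 Y →ₗ[ℂ] L2 Y :=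
    { toFun := fun ξ => ⟨f ξ, mem_of_summable
        (summable_of_sum_le (fun _ => by positivity) (hf ξ))⟩
      map_add' := fun ξ η => by
        ext y
        change f (ξ + η) y = f ξ y + f η y
        simp only [f, map_add, lp.coeFn_add, Pi.add_apply]
      map_smul' := fun a ξ => by
        ext y
        change f (a • ξ) y = a * f ξ y
        simp only [f, map_smul, lp.coeFn_smul, Pi.smul_apply, smul_eq_mul] }
  have hL : ∀ ξ, ‖L ξ‖ ≤ c * ‖ξ‖ := fun ξ => norm_le_of_sum (by positivity) (hf ξ)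
  refine ⟨L.mkContinuous c hL, L.mkContinuous_norm_le hc hL, fun y y' => ?_⟩
  change f (dl y') y = _
  simp only [f]
  rw [cut_dl]
  by_cases h : κ1 y = κ2 y'
  · rw [if_pos h, if_pos (show y' ∈ {z | κ2 z = κ1 y} from h.symm)]
    rfl
  · rw [if_neg h, if_neg (show y' ∉ {z | κ2 z = κ1 y} from fun h' => h (Eq.symm h'))]
    simp

open Classical in
theorem glue_UR {Y I : Type} (g : Gauge Y) (κ1 κ2 : Y → I) (S : I → B Y)
    (hS : ∀ i, ‖S i‖ ≤ 1) (hA : UA g S) : ∃ T : B Y, T ∈ @UR Y g.metric ∧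
      ∀ y y', ent T y y' = if κ1 y = κ2 y' then ent (S (κ1 y)) y y' else 0 := by
  obtain ⟨T, -, hT⟩ := exists_glue κ1 κ2 S zero_le_one hS
  refine ⟨T, Metric.mem_closure_iff.2 fun ε hε => ?_, hT⟩
  obtain ⟨R, hR⟩ := hA (ε / 2) (by positivity)
  choose S' h1 h2 using hR
  obtain ⟨D, h3, h4⟩ := exists_glue κ1 κ2 (fun i => S i - S' i) (by positivity) h2
  refine ⟨T - D, mem_FP_of_gauge g R fun y y' h => ?_, ?_⟩
  · rw [ent_sub, hT, h4] at h
    split_ifs at h with h5
    · apply h1 (κ1 y)
      simpa using h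
    · simp at h
  · rw [dist_eq_norm, sub_sub_cancel]
    linarith

/-- a family of homogeneous unitaries -/
structure Triv (X Y G : Type) [Group G] where
  π : Y → G
  ι : X → G
  κ : G → X
  inv : ∀ x, κ (ι x) = x
  J : X → B Y
  hU : ∀ x, J x ∈ unitary (B Y)
  hD : ∀ x, Deg π (ι x) (J x)
  y0 : Y
  hy0 : π y0 = 1

namespace Triv

variable {X Y G : Type} [Group G] (D : Triv X Y G)

/-- the base fibre -/
def W : Type := {y : Y // D.π y = 1}

/-- the image of the basis -/
noncomputable def v (p : X × D.W) : L2 Y := D.J p.1 (dl p.2.1)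

theorem v_supp {p : X × D.W} {y : Y} (h : D.v p y ≠ 0) : D.π y = D.ι p.1 := by
  rw [D.hD p.1 y p.2.1 h, p.2.2, mul_one]

theorem v_orth : Orthonormal ℂ D.v := by
  classical
  rw [orthonormal_iff_ite]
  rintro ⟨x, w⟩ ⟨x', w'⟩
  have h1 : ⟪D.v (x, w), D.v (x', w')⟫_ℂ = ent (star (D.J x) * D.J x') w.1 w'.1 := by
    rw [ent_eq_inner, mul_apply_eq_comp, ContinuousLinearMap.star_eq_adjoint,
      ContinuousLinearMap.adjoint_inner_right]
    rfl
  rw [h1]
  by_cases h : x = x'
  · subst h
    rw [(D.hU x).1, ent_one]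
    by_cases h2 : w = w'
    · simp [h2]
    · rw [if_neg (fun h => h2 (Subtype.ext h)), if_neg (fun h => h2 (Prod.ext_iff.1 h).2)]
  · rw [if_neg (fun h' => h (Prod.ext_iff.1 h').1)]
    by_contra h2
    have h3 := (D.hD x).star.mul (D.hD x') _ _ h2
    rw [w.2, w'.2, mul_one, eq_comm, inv_mul_eq_one] at h3
    exact h (by rw [← D.inv x, h3, D.inv])

/-- the isometry -/
noncomputable def V : L2 (X × D.W) →L[ℂ] L2 Y :=
  D.v_orth.orthogonalFamily.linearIsometry.toContinuousLinearMap

theorem V_dl (p : X × D.W) : D.V (dl p) = D.v p := by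
  classical
  rw [← dl_eq_single]
  simp [V]

theorem adj_V_V : (ContinuousLinearMap.adjoint D.V).comp D.V = 1 := by
  classical
  apply ent_ext
  intro x x'
  rw [ent_eq_inner, ContinuousLinearMap.comp_apply, ContinuousLinearMap.adjoint_inner_right, V_dl,
    V_dl, ent_one]
  exact orthonormal_iff_ite.1 D.v_orth x x'

theorem adj_V_V_apply (ξ : L2 (X × D.W)) : ContinuousLinearMap.adjoint D.V (D.V ξ) = ξ :=
  congrArg (fun T : B (X × D.W) => T ξ) D.adj_V_V

/-- the embedding -/
noncomputable def Φ (a : B X) : B Y :=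
  D.V.comp ((amp (Equiv.refl (X × D.W)) a).comp (ContinuousLinearMap.adjoint D.V))

theorem Φ_mul (a b : B X) : D.Φ (a * b) = D.Φ a * D.Φ b := by
  ext ξ : 1
  simp only [Φ, amp_mul, mul_apply_eq_comp, ContinuousLinearMap.comp_apply, adj_V_V_apply]

theorem Φ_add (a b : B X) : D.Φ (a + b) = D.Φ a + D.Φ b := by
  ext ξ : 1
  simp [Φ]

theorem Φ_zero : D.Φ 0 = 0 := by
  ext ξ : 1
  simp [Φ]

theorem Φ_smul (c : ℂ) (a : B X) : D.Φ (c • a) = c • D.Φ a := by
  ext ξ : 1
  simp [Φ]

theorem Φ_star (a : B X) : D.Φ (star a) = star (D.Φ a) := by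
  rw [Φ, Φ, amp_star, ContinuousLinearMap.star_eq_adjoint, ContinuousLinearMap.star_eq_adjoint,
    ContinuousLinearMap.adjoint_comp, ContinuousLinearMap.adjoint_comp,
    ContinuousLinearMap.adjoint_adjoint, ContinuousLinearMap.comp_assoc]

theorem Φ_cont : Continuous D.Φ := by
  unfold Φ
  exact continuous_const.clm_comp ((amp _).continuous.clm_comp continuous_const)

open Classical in
theorem amp_dl (a : B X) (x x' : X) (w w' : D.W) :
    amp (Equiv.refl (X × D.W)) a (dl (x', w')) (x, w) = if w = w' then ent a x x' else 0 :=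
  ent_amp (Equiv.refl (X × D.W)) a x x' w w'

theorem Φ_inj : Function.Injective D.Φ := by
  intro a b h
  apply ent_ext
  intro x x'
  have h1 := congrArg (fun T : B Y =>
    ContinuousLinearMap.adjoint D.V (T (D.V (dl (x', ⟨D.y0, D.hy0⟩)))) (x, ⟨D.y0, D.hy0⟩)) h
  simpa only [Φ, ContinuousLinearMap.comp_apply, adj_V_V_apply, amp_dl, if_true] using h1

theorem Φ_eq {a : B X} {T : B Y}
    (h : ∀ p, T (D.v p) = D.V (amp (Equiv.refl (X × D.W)) a (dl p))) : D.Φ a = T * D.Φ 1 := by
  have h1 : T.comp D.V = D.V.comp (amp (Equiv.refl (X × D.W)) a) :=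
    ext_dl fun p => by simp only [ContinuousLinearMap.comp_apply, V_dl, h]
  ext ξ : 1
  have h2 := congrArg (fun A => A (ContinuousLinearMap.adjoint D.V ξ)) h1
  simp only [ContinuousLinearMap.comp_apply] at h2
  simp only [Φ, amp_one, mul_apply_eq_comp, ContinuousLinearMap.comp_apply, one_apply_eq_self, h2]

theorem Φ_one : D.Φ 1 = cut {y | ∃ x, D.π y = D.ι x} := by
  classical
  refine ext_dl fun y => ?_
  rw [cut_dl]
  simp only [Φ, amp_one, ContinuousLinearMap.comp_apply, one_apply_eq_self]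
  split_ifs with h
  · obtain ⟨x, hx⟩ := h
    have hi : Function.Injective fun w : D.W => (x, w) := fun w w' h => (Prod.ext_iff.1 h).2
    have h1 : D.V.comp (push _ hi) =
        (D.J x).comp (push (Subtype.val : {y | D.π y = 1} → Y) Subtype.val_injective) :=
      ext_dl fun w => by
        simp only [ContinuousLinearMap.comp_apply, push_dl, V_dl]
        exact congrArg (D.J x)
          (push_dl (Subtype.val : {y | D.π y = 1} → Y) Subtype.val_injective w).symm
    have h2 : cut {y | D.π y = 1} (star (D.J x) (dl y)) = star (D.J x) (dl y) := by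
      ext z
      rw [cut_apply]
      split_ifs with h3
      · rfl
      · by_contra h4
        apply h3
        have := (D.hD x).star z y (fun h => h4 (Eq.symm h))
        rw [hx, inv_mul_cancel] at this
        exact this
    have h3 : D.V (push _ hi (pull (Subtype.val : {y | D.π y = 1} → Y) Subtype.val_injective
        (star (D.J x) (dl y)))) = dl y := by
      have h4 := congrArg (fun A => A (pull (Subtype.val : {y | D.π y = 1} → Y)
        Subtype.val_injective (star (D.J x) (dl y)))) h1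
      simp only [ContinuousLinearMap.comp_apply] at h4
      refine h4.trans ?_
      change D.J x (cut {y | D.π y = 1} (star (D.J x) (dl y))) = dl y
      rw [h2, ← mul_apply_eq_comp, (D.hU x).2]
      rfl
    rw [← h3, adj_V_V_apply]
  · have : ContinuousLinearMap.adjoint D.V (dl y) = 0 := by
      ext p
      rw [← inner_dl, ContinuousLinearMap.adjoint_inner_right, V_dl, ← inner_conj_symm, inner_dl]
      have : D.v p y = 0 := by
        by_contra h1
        exact h ⟨_, D.v_supp h1⟩
      simp [this]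
    rw [this, map_zero]

theorem diag_FP {Z : Type} [MetricSpace Z] {M : B Z} (h : ∀ x y, ent M x y ≠ 0 → x = y) :
    M ∈ FP Z := by
  refine ⟨0, fun x y hxy => ?_⟩
  by_contra h1
  rw [h x y h1] at hxy
  simp at hxy

theorem Φ_one_UR [MetricSpace Y] : D.Φ 1 ∈ UR Y := by
  classical
  refine FP_sub_UR _ (diag_FP fun x y h => ?_)
  rw [Φ_one, ent_cut] at h
  by_contra h1
  exact h (if_neg fun h2 => h1 h2.1)

theorem Φ_diag [MetricSpace Y] {M : B X} {c : X → ℂ} {C : ℝ} (hc : ∀ x, ‖c x‖ ≤ C)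
    (h : ∀ (ξ : L2 X) x, M ξ x = c x * ξ x) : D.Φ M ∈ UR Y := by
  classical
  obtain ⟨T, hT⟩ := exists_mulop (fun y => c (D.κ (D.π y))) C (fun y => hc _)
  rw [D.Φ_eq (T := T)]
  · refine mul_mem (FP_sub_UR _ (diag_FP fun x y h1 => ?_)) D.Φ_one_UR
    rw [ent, hT, dl_apply] at h1
    by_contra h2
    exact h1 (by rw [if_neg h2, mul_zero])
  · rintro ⟨x, w⟩
    have h1 : amp (Equiv.refl (X × D.W)) M (dl (x, w)) = c x • dl (x, w) := by
      ext ⟨x', w'⟩
      rw [amp_dl, ent, h, lp.coeFn_smul, Pi.smul_apply, dl_apply, dl_apply]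
      by_cases h2 : x' = x <;> by_cases h3 : w' = w <;> simp [h2, h3]
    rw [h1, map_smul, V_dl]
    ext y
    rw [hT, lp.coeFn_smul, Pi.smul_apply, smul_eq_mul]
    by_cases h2 : D.v (x, w) y = 0
    · simp [h2]
    · rw [D.v_supp h2, D.inv]

theorem Φ_perm (g : Gauge Y) (σ : Perm X) (hA : UA g fun x => D.J (σ x) * star (D.J x)) :
    D.Φ (perm σ) ∈ @UR Y g.metric := by
  classical
  let _ := g.metric
  have : Nontrivial (B Y) := ⟨0, 1, fun h => by
    have := congrArg (fun T => ent T D.y0 D.y0) h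
    simp [ent_one] at this⟩
  obtain ⟨T, h1, hT⟩ := glue_UR g (fun y => σ⁻¹ (D.κ (D.π y))) (fun y => D.κ (D.π y)) _
    (fun x => (CStarRing.norm_of_mem_unitary
      (mul_mem (D.hU (σ x)) (Unitary.star_mem (D.hU x)))).le) hA
  rw [D.Φ_eq (T := T)]
  · exact mul_mem h1 D.Φ_one_UR
  · rintro ⟨x, w⟩
    have h2 : amp (Equiv.refl (X × D.W)) (perm σ) (dl (x, w)) = dl (σ x, w) := by
      ext ⟨x', w'⟩
      rw [amp_dl, ent_perm, dl_apply]
      by_cases h2 : x' = σ x <;> by_cases h3 : w' = w <;> simp [h2, h3]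
    have h3 : D.v (σ x, w) = (D.J (σ x) * star (D.J x)) (D.v (x, w)) := by
      change _ = (D.J (σ x) * star (D.J x) * D.J x) (dl w.1)
      rw [mul_assoc, (D.hU x).1, mul_one]
      rfl
    rw [h2, V_dl, h3]
    ext y
    refine (hasSum_apply T _ y).unique ?_
    convert hasSum_apply (D.J (σ x) * star (D.J x)) (D.v (x, w)) y using 2 with z
    by_cases h4 : D.v (x, w) z = 0
    · simp [h4]
    · have h5 := D.v_supp h4
      rw [hT, h5, D.inv]
      congr 1
      split_ifs with h6
      · rw [h6]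
      · by_contra h7
        apply h6
        rw [(D.hD (σ x)).mul (D.hD x).star y z (fun h => h7 h.symm), h5, inv_mul_cancel_right,
          D.inv]
        exact σ.symm_apply_apply x

theorem Φ_UR {I : Type} [DecidableEq I] [Finite I] (g : Gauge Y) (gX : Gauge X)
    (α : FreeGroup I →* Perm X)
    (hX : ∀ k x x', gX.R k x x' → ∃ w : FreeGroup I, w.norm ≤ k ∧ x = α w x')
    (hA : ∀ i, UA g fun x => D.J (α (FreeGroup.of i) x) * star (D.J x))
    {a : B X} (ha : a ∈ @UR X gX.metric) : D.Φ a ∈ @UR Y g.metric := by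
  classical
  let _ := g.metric
  have h1 : ∀ w, D.Φ (perm (α w)) ∈ UR Y := by
    intro w
    induction w using FreeGroup.induction_on with
    | C1 => rw [map_one, perm_one]; exact D.Φ_one_UR
    | of i => exact D.Φ_perm g _ (hA i)
    | inv_of i h => rw [map_inv, ← star_perm, Φ_star]; exact star_mem h
    | mul x y h h' => rw [map_mul, perm_mul, Φ_mul]; exact mul_mem h h'
  have h2 : ∀ b ∈ @FP X gX.metric, D.Φ b ∈ closure (FP Y) := by
    intro b hb
    obtain ⟨k, hk⟩ := gauge_of_mem_FP gX hb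
    choose! ch hch using fun x x' h => hX k x x' (hk x x' h)
    choose M hM using fun w : FreeGroup I => exists_mulop (fun x : X =>
      if ch x ((α w)⁻¹ x) = w then ent b x ((α w)⁻¹ x) else 0) ‖b‖ (fun y => by
        split_ifs
        · exact norm_ent_le _ _ _
        · simp)
    have h3 : b = ∑ w ∈ ball I k, M w * perm (α w) := by
      apply ent_ext
      intro x x'
      rw [ent_sum]
      have h4 : ∀ w, ent (M w * perm (α w)) x x' =
          if x = α w x' ∧ ch x x' = w then ent b x x' else 0 := by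
        intro w
        rw [ent_mul_perm, ent, hM, dl_apply]
        by_cases h5 : x = α w x'
        · have h6 : (α w)⁻¹ x = x' := by rw [h5]; exact (α w).symm_apply_apply x'
          rw [h6, if_pos h5, mul_one]
          simp only [← h5, true_and]
        · simp [h5]
      simp only [h4]
      by_cases h5 : ent b x x' = 0
      · simp [h5]
      · obtain ⟨h6, h7⟩ := hch _ _ h5
        rw [Finset.sum_eq_single (ch x x'), if_pos ⟨h7, rfl⟩]
        · intro w _ hw
          exact if_neg fun h => hw h.2.symm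
        · intro h
          exact absurd (mem_ball.2 h6) h
    rw [h3]
    change _ ∈ UR Y
    induction (ball I k) using Finset.induction_on with
    | empty => rw [Finset.sum_empty, Φ_zero]; exact zero_mem _
    | insert w s hw ih =>
      rw [Finset.sum_insert hw, Φ_add, Φ_mul]
      refine add_mem (mul_mem (D.Φ_diag (C := ‖b‖) (fun y => ?_) (hM w)) (h1 w)) ih
      split_ifs
      · exact norm_ent_le _ _ _
      · simp
  have := map_mem_closure D.Φ_cont ha (t := closure (FP Y)) h2
  rwa [closure_closure] at this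

end Triv

end Pool.Agent.H596Z.Asd
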