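import Pool.Agent.H596Z.Asd.Good

/-!
A flat connection over the half plane, by halving the curvature level by level.
-/

set_option autoImplicit false
set_option linter.unusedSectionVars false

namespace Pool.Agent.H596Z.Asd

open scoped InnerProductSpace ENNReal
open Pool.Agent.H812R3.KP Pool.Agent.H596Z.Roe Equiv

variable {Y G : Type} [Group G] {g : Gauge Y} {π : Y → G}

/-- the property of one level -/
def Lev (g : Gauge Y) (π : Y → G) (lam l : ℝ) (t v : G) (A : B Y) (k : ℕ) (J : ℤ → B Y) : Prop :=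
  (∀ j, J j ∈ unitary (B Y) ∧ Deg π (t ^ j * v ^ k) (J j)) ∧
    ∀ j, ∃ w, Good g π lam w l ∧ J (j + 1) = w * A * J j

theorem lev_step {lam l0 : ℝ} (hl : 1 ≤ lam) {C : ℕ} (hC : lam ^ (2 * C) * lam ^ (2 * C) ≤ 3 / 2)
    {t v : G} (htv : v * t * v⁻¹ = t * t) {a b : Perm Y} (ha : Bd g π C t a) (hb : Bd g π C v b)
    (hc : Good g π lam (perm (b * a * b⁻¹ * a⁻¹ * a⁻¹)) l0) {k : ℕ} {J : ℤ → B Y}
    (hJ : Lev g π lam (3 * l0) t v (perm a) k J) :
    ∃ J', Lev g π lam (3 * l0) t v (perm a) (k + 1) J' ∧ ∀ j, J' (2 * j) = perm b * J j := by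
  obtain ⟨h1, h2⟩ := hJ
  have hl0 := hc.nonneg hl
  set μ := lam ^ (2 * C) with hμ
  have hμ1 : 1 ≤ μ := one_le_pow₀ hl
  have hμ2 : μ ≤ 3 / 2 := by nlinarith
  have key : ∀ j, ∃ w1 w2, Good g π lam w1 (3 * l0) ∧ Good g π lam w2 (3 * l0) ∧
      perm b * J (j + 1) = w2 * perm a * (w1 * perm a * (perm b * J j)) := by
    intro j
    obtain ⟨w, hw, e⟩ := h2 j
    have g1 := (hw.conj hl (perm_unitary b) hb.pr hb.deg).mul hc
    obtain ⟨u2, u1, e2, g2, g3⟩ := g1.split hl ((μ * (3 * l0) + l0) / 2) ((μ * (3 * l0) + l0) / 2)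
      (by positivity) (by positivity) (by rw [hμ]; linarith)
    have g4 := g3.conj hl (Unitary.star_mem (perm_unitary a)) ha.pr.star ha.deg.star
    refine ⟨_, u2, g4.mono ?_, g2.mono ?_, ?_⟩
    · rw [← hμ]
      nlinarith
    · nlinarith
    · have e3 : perm a * star (perm a) = 1 := (perm_unitary a).2
      have e4 : star (perm b) * perm (b * a * b⁻¹ * a⁻¹ * a⁻¹) * perm a * perm a * perm b =
          perm a := by
        rw [star_perm, ← perm_mul, ← perm_mul, ← perm_mul, ← perm_mul]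
        congr 1
        group
      calc perm b * J (j + 1)
          = perm b * w * (star (perm b) * perm (b * a * b⁻¹ * a⁻¹ * a⁻¹) * perm a * perm a *
            perm b) * J j := by rw [e4, e]; simp only [mul_assoc]
        _ = (perm b * w * star (perm b) * perm (b * a * b⁻¹ * a⁻¹ * a⁻¹)) * perm a * perm a *
            perm b * J j := by simp only [mul_assoc]
        _ = u2 * (perm a * star (perm a)) * u1 * perm a * perm a * perm b * J j := by
            rw [e2, e3, mul_one]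
        _ = _ := by simp only [star_star, mul_assoc]
  choose w1 w2 hw1 hw2 hw using key
  have hv : ∀ j : ℤ, v * (t ^ j * v ^ k) = t ^ (2 * j) * v ^ (k + 1) := by
    intro j
    have : t ^ (2 * j) = v * t ^ j * v⁻¹ := by
      rw [← conj_zpow, htv, zpow_mul, zpow_two]
    rw [this, pow_succ']
    group
  let J' : ℤ → B Y := fun m =>
    if m % 2 = 0 then perm b * J (m / 2) else w1 (m / 2) * perm a * (perm b * J (m / 2))
  have e0 : ∀ j, J' (2 * j) = perm b * J j := by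
    intro j
    simp only [J']
    rw [if_pos (by omega), show 2 * j / 2 = j by omega]
  have e1 : ∀ j, J' (2 * j + 1) = w1 j * perm a * (perm b * J j) := by
    intro j
    simp only [J']
    rw [if_neg (by omega), show (2 * j + 1) / 2 = j by omega]
  have d0 : ∀ j, Deg π (t ^ (2 * j) * v ^ (k + 1)) (perm b * J j) := by
    intro j
    rw [← hv]
    exact hb.deg.mul (h1 j).2
  refine ⟨J', ⟨fun m => ?_, fun m => ?_⟩, e0⟩
  · obtain ⟨j, rfl | rfl⟩ := Int.even_or_odd' m
    · rw [e0]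
      exact ⟨mul_mem (perm_unitary b) (h1 j).1, d0 j⟩
    · rw [e1]
      refine ⟨mul_mem (mul_mem (hw1 j).unitary (perm_unitary a))
        (mul_mem (perm_unitary b) (h1 j).1), ?_⟩
      have := ((hw1 j).deg.mul ha.deg).mul (d0 j)
      rwa [one_mul, ← mul_assoc, ← zpow_one_add, add_comm] at this
  · obtain ⟨j, rfl | rfl⟩ := Int.even_or_odd' m
    · exact ⟨w1 j, hw1 j, by rw [e0, e1]⟩
    · refine ⟨w2 j, hw2 j, ?_⟩
      rw [e1, show 2 * j + 1 + 1 = 2 * (j + 1) by ring, e0, hw]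

/-- uniform approximation by operators of bounded propagation -/
def UA (g : Gauge Y) {I : Type} (T : I → B Y) : Prop :=
  ∀ ε : ℝ, 0 < ε → ∃ R : ℕ, ∀ i, ∃ S, Pr g R S ∧ ‖T i - S‖ ≤ ε

theorem exists_flat {t v : G} (htv : v * t * v⁻¹ = t * t) {C : ℕ} {a b : Perm Y}
    (ha : Bd g π C t a) (hb : Bd g π C v b) (hc : b * a * b⁻¹ * a⁻¹ * a⁻¹ ∈ NN g π) :
    ∃ J : ℕ × ℤ → B Y, (∀ x, J x ∈ unitary (B Y) ∧ Deg π (t ^ x.2 * v ^ x.1) (J x)) ∧
      (∀ k j, J (k + 1, 2 * j) = perm b * J (k, j)) ∧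
      UA g fun x : ℕ × ℤ => J (x.1, x.2 + 1) * star (J x) := by
  set lam : ℝ := (3 / 2 : ℝ) ^ (((4 * C + 1 : ℕ) : ℝ)⁻¹) with hlam
  have hl : 1 < lam := Real.one_lt_rpow (by norm_num) (by positivity)
  have hC : lam ^ (2 * C) * lam ^ (2 * C) ≤ 3 / 2 := by
    rw [← pow_add, ← Real.rpow_inv_natCast_pow (x := 3 / 2) (n := 4 * C + 1) (by norm_num)
      (by omega), ← hlam]
    exact pow_le_pow_right₀ hl.le (by omega)
  obtain ⟨l0, hl0⟩ := good_of_NN (lam := lam) hc
  have h0 : Lev g π lam (3 * l0) t v (perm a) 0 fun j => perm (a ^ j) := by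
    refine ⟨fun j => ⟨perm_unitary _, ?_⟩, fun j => ⟨1, Good.one _ ?_, ?_⟩⟩
    · rw [pow_zero, mul_one]
      beta_reduce
      induction j using Int.induction_on with
      | zero => simpa [perm_one] using Deg.one
      | succ n ih =>
        rw [add_comm, zpow_one_add, zpow_one_add, perm_mul]
        exact ha.deg.mul ih
      | pred n ih =>
        rw [sub_eq_neg_add, zpow_add, zpow_add, perm_mul, zpow_neg_one, zpow_neg_one,
          ← star_perm]
        exact ha.deg.star.mul ih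
    · have := hl0.nonneg hl.le
      positivity
    · simp only
      rw [one_mul, ← perm_mul, add_comm, zpow_one_add]
  choose F hF1 hF2 using fun (k : ℕ) (J : {J : ℤ → B Y // Lev g π lam (3 * l0) t v (perm a) k J}) =>
    lev_step hl.le hC htv ha hb hl0 J.2
  let S : (k : ℕ) → {J : ℤ → B Y // Lev g π lam (3 * l0) t v (perm a) k J} := fun k =>
    Nat.rec ⟨_, h0⟩ (fun k J => ⟨F k J, hF1 k J⟩) k
  refine ⟨fun x => (S x.1).1 x.2, fun x => (S x.1).2.1 x.2, fun k j => hF2 k (S k) j, ?_⟩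
  intro ε hε
  obtain ⟨R, hR⟩ := pow_unbounded_of_one_lt (Real.exp (3 * l0) / ε) hl
  refine ⟨R + C, fun x => ?_⟩
  obtain ⟨w, hw, e⟩ := (S x.1).2.2 x.2
  obtain ⟨u, h1, h2⟩ := hw.approx hl.le R
  refine ⟨u * perm a, h1.mul ha.pr, ?_⟩
  have e2 : (S x.1).1 x.2 * star ((S x.1).1 x.2) = 1 := ((S x.1).2.1 x.2).1.2
  simp only
  rw [e, mul_assoc, e2, mul_one, ← sub_mul]
  have h3 : ‖perm a‖ ≤ 1 := norm_pull_le _ _
  have h4 : 0 < lam ^ R := by positivity
  have h5 : ‖w - u‖ ≤ ε := by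
    rw [div_lt_iff₀ hε] at hR
    by_contra h6
    have := mul_lt_mul_of_pos_right (not_le.1 h6) h4
    linarith
  calc ‖(w - u) * perm a‖ ≤ ‖w - u‖ * ‖perm a‖ := norm_mul_le _ _
    _ ≤ ε * 1 := by gcongr
    _ = ε := mul_one _

end Pool.Agent.H596Z.Asd
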