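import Pool.Agent.H596Z.Roe.Basic

/-!
Products of rotations with a weighted cost, and halving of the curvature.
-/

set_option autoImplicit false
set_option linter.unusedSectionVars false

namespace Pool.Agent.H596Z.Asd

open scoped InnerProductSpace ENNReal
open Pool.Agent.H812R3.KP Pool.Agent.H596Z.Roe Equiv

variable {Y G : Type} [Group G]

/-- homogeneous operators -/
def Deg (π : Y → G) (d : G) (T : B Y) : Prop := ∀ y y', ent T y y' ≠ 0 → π y = d * π y'

/-- propagation bound -/
def Pr (g : Gauge Y) (r : ℕ) (T : B Y) : Prop := ∀ y y', ent T y y' ≠ 0 → g.R r y y'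

variable {g : Gauge Y} {π : Y → G}

theorem Deg.mul {d e : G} {S T : B Y} (hS : Deg π d S) (hT : Deg π e T) :
    Deg π (d * e) (S * T) := by
  intro y y' h
  obtain ⟨z, h1, h2⟩ := ent_mul_ne h
  rw [hS _ _ h1, hT _ _ h2, mul_assoc]

theorem Deg.star {d : G} {S : B Y} (hS : Deg π d S) : Deg π d⁻¹ (star S) := by
  intro y y' h
  rw [hS _ _ (ent_star_ne h), inv_mul_cancel_left]

theorem Deg.one : Deg π 1 (1 : B Y) := by
  classical
  intro y y' h
  rw [ent_one] at h
  have : y = y' := by
    by_contra h1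
    exact h (if_neg h1)
  rw [this, one_mul]

theorem Deg.add {d : G} {S T : B Y} (hS : Deg π d S) (hT : Deg π d T) : Deg π d (S + T) := by
  intro y y' h
  by_cases h1 : ent S y y' = 0
  · rw [ent_add, h1, zero_add] at h
    exact hT _ _ h
  · exact hS _ _ h1

theorem Deg.smul {d : G} {S : B Y} (c : ℂ) (hS : Deg π d S) : Deg π d (c • S) := by
  intro y y' h
  rw [ent_smul] at h
  exact hS _ _ (right_ne_zero_of_mul h)

theorem Pr.mul {r s : ℕ} {S T : B Y} (hS : Pr g r S) (hT : Pr g s T) : Pr g (r + s) (S * T) := by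
  intro y y' h
  obtain ⟨z, h1, h2⟩ := ent_mul_ne h
  exact g.trans _ _ _ _ _ (hS _ _ h1) (hT _ _ h2)

theorem Pr.star {r : ℕ} {S : B Y} (hS : Pr g r S) : Pr g r (star S) :=
  fun _ _ h => g.symm _ _ _ (hS _ _ (ent_star_ne h))

theorem Pr.mono {r s : ℕ} {S : B Y} (hS : Pr g r S) (h : r ≤ s) : Pr g s S :=
  fun _ _ h' => g.mono _ _ _ _ h (hS _ _ h')

theorem Pr.one (r : ℕ) : Pr g r (1 : B Y) := by
  classical
  intro y y' h
  rw [ent_one] at h
  have : y = y' := by
    by_contra h1
    exact h (if_neg h1)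
  rw [this]
  exact g.mono _ _ _ _ (Nat.zero_le _) (g.refl _)

theorem Pr.add {r : ℕ} {S T : B Y} (hS : Pr g r S) (hT : Pr g r T) : Pr g r (S + T) := by
  intro y y' h
  by_cases h1 : ent S y y' = 0
  · rw [ent_add, h1, zero_add] at h
    exact hT _ _ h
  · exact hS _ _ h1

theorem Pr.smul {r : ℕ} {S : B Y} (c : ℂ) (hS : Pr g r S) : Pr g r (c • S) := by
  intro y y' h
  rw [ent_smul] at h
  exact hS _ _ (right_ne_zero_of_mul h)

/-- rotation along a projection -/
noncomputable def rot (p : B Y) (θ : ℝ) : B Y := 1 + (Complex.exp (Complex.I * θ) - 1) • p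

theorem rot_add {p : B Y} (hp : IsStarProjection p) (θ η : ℝ) :
    rot p θ * rot p η = rot p (θ + η) := by
  have h : p * p = p := hp.isIdempotentElem
  simp only [rot, add_mul, mul_add, one_mul, mul_one, smul_mul_smul_comm, h, add_assoc,
    ← add_smul]
  congr 2
  push_cast
  rw [mul_add, Complex.exp_add]
  ring

theorem rot_zero (p : B Y) : rot p 0 = 1 := by simp [rot]

theorem star_rot {p : B Y} (hp : IsStarProjection p) (θ : ℝ) : star (rot p θ) = rot p (-θ) := by
  have h : star p = p := hp.isSelfAdjoint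
  simp only [rot, star_add, star_one, star_smul, h, star_sub]
  congr 3
  rw [Complex.star_def, ← Complex.exp_conj]
  simp

theorem rot_unitary {p : B Y} (hp : IsStarProjection p) (θ : ℝ) : rot p θ ∈ unitary (B Y) := by
  rw [Unitary.mem_iff, star_rot hp, rot_add hp, rot_add hp]
  simp [rot_zero]

theorem norm_rot {p : B Y} (hp : IsStarProjection p) {θ : ℝ} (h : 0 ≤ θ) :
    ‖(Complex.exp (Complex.I * θ) - 1) • p‖ ≤ θ := by
  rw [norm_smul]
  have h1 := @Real.norm_exp_I_mul_ofReal_sub_one_le θ
  rw [Real.norm_of_nonneg h] at h1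
  have h2 := hp.norm_le
  calc _ ≤ θ * 1 := by gcongr
    _ = θ := mul_one _

/-- products of rotations with a cost bound -/
inductive Good (g : Gauge Y) (π : Y → G) (lam : ℝ) : B Y → ℝ → Prop
  | one (l : ℝ) : 0 ≤ l → Good g π lam 1 l
  | cons (p : B Y) (r : ℕ) (θ : ℝ) (u : B Y) (l : ℝ) : IsStarProjection p → Pr g r p →
      Deg π 1 p → 0 ≤ θ → Good g π lam u l → Good g π lam (rot p θ * u) (θ * lam ^ r + l)

variable {lam : ℝ}

theorem Good.nonneg (hl : 1 ≤ lam) {u : B Y} {l : ℝ} (h : Good g π lam u l) : 0 ≤ l := by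
  induction h with
  | one l h => exact h
  | cons p r θ u l _ _ _ h1 _ ih => positivity

theorem Good.mono {u : B Y} {l : ℝ} (h : Good g π lam u l) :
    ∀ {l' : ℝ}, l ≤ l' → Good g π lam u l' := by
  induction h with
  | one l h => exact fun h' => Good.one _ (h.trans h')
  | cons p r θ u l h1 h2 h3 h4 _ ih =>
    intro l' h'
    have : l' = θ * lam ^ r + (l' - θ * lam ^ r) := by ring
    rw [this]
    exact Good.cons _ _ _ _ _ h1 h2 h3 h4 (ih (by linarith))

theorem Good.mul {u v : B Y} {l m : ℝ} (h : Good g π lam u l) (h' : Good g π lam v m) :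
    Good g π lam (u * v) (l + m) := by
  induction h with
  | one l h =>
    rw [one_mul]
    exact h'.mono (by linarith)
  | cons p r θ u l h1 h2 h3 h4 _ ih =>
    rw [mul_assoc, add_assoc]
    exact Good.cons _ _ _ _ _ h1 h2 h3 h4 ih

theorem Good.unitary {u : B Y} {l : ℝ} (h : Good g π lam u l) : u ∈ unitary (B Y) := by
  induction h with
  | one l h => exact one_mem _
  | cons p r θ u l h1 _ _ _ _ ih => exact mul_mem (rot_unitary h1 θ) ih

theorem Good.deg {u : B Y} {l : ℝ} (h : Good g π lam u l) : Deg π 1 u := by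
  induction h with
  | one l h => exact Deg.one
  | cons p r θ u l _ _ h3 _ _ ih =>
    have := (Deg.one.add (h3.smul (Complex.exp (Complex.I * θ) - 1))).mul ih
    rwa [mul_one] at this

theorem Good.split (hl : 1 ≤ lam) {u : B Y} {l : ℝ} (h : Good g π lam u l) :
    ∀ s t : ℝ, 0 ≤ s → 0 ≤ t → l ≤ s + t →
      ∃ u1 u2, u = u1 * u2 ∧ Good g π lam u1 s ∧ Good g π lam u2 t := by
  induction h with
  | one l h => exact fun s t hs ht _ => ⟨1, 1, by simp, Good.one _ hs, Good.one _ ht⟩
  | cons p r θ u l h1 h2 h3 h4 h5 ih =>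
    intro s t hs ht hst
    by_cases h6 : θ * lam ^ r ≤ s
    · obtain ⟨u1, u2, e, g1, g2⟩ := ih (s - θ * lam ^ r) t (by linarith) ht (by linarith)
      refine ⟨rot p θ * u1, u2, by rw [e, mul_assoc], ?_, g2⟩
      exact (Good.cons _ _ _ _ _ h1 h2 h3 h4 g1).mono (by linarith)
    · have h7 : 0 < lam ^ r := by positivity
      have h8 : s / lam ^ r * lam ^ r = s := div_mul_cancel₀ _ h7.ne'
      have h9 : s / lam ^ r ≤ θ := by
        rw [div_le_iff₀ h7]
        linarith
      refine ⟨rot p (s / lam ^ r) * 1, rot p (θ - s / lam ^ r) * u, ?_, ?_, ?_⟩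
      · rw [mul_one, ← mul_assoc, rot_add h1]
        congr 2
        ring
      · exact (Good.cons _ _ _ _ _ h1 h2 h3 (by positivity) (Good.one 0 le_rfl)).mono
          (by linarith)
      · refine (Good.cons _ _ _ _ _ h1 h2 h3 (by linarith) h5).mono ?_
        rw [sub_mul]
        linarith

theorem Good.conj (hl : 1 ≤ lam) {A : B Y} (hA : A ∈ _root_.unitary (B Y)) {C : ℕ} {d : G}
    (hC : Pr g C A) (hd : Deg π d A) {u : B Y} {l : ℝ} (h : Good g π lam u l) :
    Good g π lam (A * u * star A) (lam ^ (2 * C) * l) := by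
  have e1 : star A * A = 1 := hA.1
  have e2 : A * star A = 1 := hA.2
  induction h with
  | one l h =>
    rw [mul_one, e2]
    exact Good.one _ (by positivity)
  | cons p r θ u l h1 h2 h3 h4 _ ih =>
    have e3 : A * (rot p θ * u) * star A = rot (A * p * star A) θ * (A * u * star A) := by
      simp only [rot, add_mul, mul_add, one_mul, smul_mul_assoc, mul_smul_comm, mul_assoc]
      rw [← mul_assoc (star A) A, e1, one_mul]
    have e4 : lam ^ (2 * C) * (θ * lam ^ r + l) = θ * lam ^ (C + r + C) + lam ^ (2 * C) * l := by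
      ring
    rw [e3, e4]
    refine Good.cons _ _ _ _ _ ⟨?_, ?_⟩ ((hC.mul h2).mul hC.star) ?_ h4 ih
    · have h : p * p = p := h1.isIdempotentElem
      change A * p * star A * (A * p * star A) = A * p * star A
      calc A * p * star A * (A * p * star A) = A * (p * (star A * A) * p) * star A := by
            simp only [mul_assoc]
        _ = A * p * star A := by rw [e1, mul_one, h]
    · exact h1.isSelfAdjoint.conjugate A
    · have := (hd.mul h3).mul hd.star
      rwa [mul_one, mul_inv_cancel] at this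

theorem Good.norm_le (hl : 1 ≤ lam) {u : B Y} {l : ℝ} (h : Good g π lam u l) :
    ‖u‖ ≤ Real.exp l := by
  induction h with
  | one l h => exact ContinuousLinearMap.norm_id_le.trans (Real.one_le_exp h)
  | cons p r θ u l h1 _ _ h4 _ ih =>
    have h5 : ‖rot p θ‖ ≤ Real.exp (θ * lam ^ r) := by
      refine (norm_add_le _ _).trans ?_
      have h6 : ‖(1 : B Y)‖ ≤ 1 := ContinuousLinearMap.norm_id_le
      have h7 := norm_rot h1 h4
      have h8 := Real.add_one_le_exp (θ * lam ^ r)
      have h9 : θ * 1 ≤ θ * lam ^ r := by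
        gcongr
        exact one_le_pow₀ hl
      linarith
    rw [Real.exp_add]
    exact (norm_mul_le _ _).trans (by gcongr)

theorem Good.approx (hl : 1 ≤ lam) {u : B Y} {l : ℝ} (h : Good g π lam u l) :
    ∀ R : ℕ, ∃ u', Pr g R u' ∧ ‖u - u'‖ * lam ^ R ≤ Real.exp l := by
  induction h with
  | one l h => exact fun R => ⟨1, Pr.one R, by simp [Real.exp_nonneg]⟩
  | cons p r θ u l h1 h2 h3 h4 h5 ih =>
    intro R
    set y : B Y := (Complex.exp (Complex.I * θ) - 1) • p with hy
    have hy1 : ‖y‖ ≤ θ := norm_rot h1 h4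
    have hy2 : Pr g r y := h2.smul _
    obtain ⟨u1, p1, n1⟩ := ih R
    have key : ∃ u2, Pr g R u2 ∧ ‖y * u - u2‖ * lam ^ R ≤ θ * lam ^ r * Real.exp l := by
      by_cases hr : r ≤ R
      · obtain ⟨u2, p2, n2⟩ := ih (R - r)
        refine ⟨y * u2, (hy2.mul p2).mono (by omega), ?_⟩
        rw [← mul_sub]
        have e : lam ^ R = lam ^ r * lam ^ (R - r) := by
          rw [← pow_add]
          congr 1
          omega
        calc ‖y * (u - u2)‖ * lam ^ R ≤ θ * ‖u - u2‖ * lam ^ R := by
              gcongr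
              exact (norm_mul_le _ _).trans (by gcongr)
          _ = θ * lam ^ r * (‖u - u2‖ * lam ^ (R - r)) := by rw [e]; ring
          _ ≤ θ * lam ^ r * Real.exp l := by gcongr
      · refine ⟨0, fun y y' h => absurd (ent_zero _ _) h, ?_⟩
        rw [sub_zero]
        have h6 := h5.norm_le hl
        calc ‖y * u‖ * lam ^ R ≤ θ * Real.exp l * lam ^ r := by
              gcongr
              · exact (norm_mul_le _ _).trans (by gcongr)
              · omega
          _ = θ * lam ^ r * Real.exp l := by ring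
    obtain ⟨u2, p2, n2⟩ := key
    refine ⟨u1 + u2, p1.add p2, ?_⟩
    have e : rot p θ * u - (u1 + u2) = (u - u1) + (y * u - u2) := by
      rw [rot, ← hy, add_mul, one_mul]
      abel
    rw [e, Real.exp_add]
    have h8 := Real.add_one_le_exp (θ * lam ^ r)
    calc ‖u - u1 + (y * u - u2)‖ * lam ^ R ≤ (‖u - u1‖ + ‖y * u - u2‖) * lam ^ R := by
          gcongr
          exact norm_add_le _ _
      _ ≤ Real.exp l + θ * lam ^ r * Real.exp l := by rw [add_mul]; linarith
      _ = (θ * lam ^ r + 1) * Real.exp l := by ring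
      _ ≤ Real.exp (θ * lam ^ r) * Real.exp l := by gcongr

theorem perm_unitary (σ : Perm Y) : perm σ ∈ unitary (B Y) := by
  rw [Unitary.mem_iff, star_perm, ← perm_mul, ← perm_mul]
  simp [perm_one]

/-- homogeneous permutations of bounded displacement -/
def Bd (g : Gauge Y) (π : Y → G) (k : ℕ) (d : G) (σ : Perm Y) : Prop :=
  ∀ y, g.R k (σ y) y ∧ π (σ y) = d * π y

theorem Bd.pr {k : ℕ} {d : G} {σ : Perm Y} (h : Bd g π k d σ) : Pr g k (perm σ) := by
  classical
  intro y y' h1
  rw [ent_perm] at h1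
  have : y = σ y' := by
    by_contra h2
    exact h1 (if_neg h2)
  rw [this]
  exact (h y').1

theorem Bd.deg {k : ℕ} {d : G} {σ : Perm Y} (h : Bd g π k d σ) : Deg π d (perm σ) := by
  classical
  intro y y' h1
  rw [ent_perm] at h1
  have : y = σ y' := by
    by_contra h2
    exact h1 (if_neg h2)
  rw [this]
  exact (h y').2

/-- the subgroup generated by the bounded involutions of trivial degree -/
def NN (g : Gauge Y) (π : Y → G) : Subgroup (Perm Y) :=
  Subgroup.closure {σ | (∃ k, Bd g π k 1 σ) ∧ σ * σ = 1}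

theorem good_of_inv {k : ℕ} {σ : Perm Y} (h : Bd g π k 1 σ) (h2 : σ * σ = 1) :
    ∃ l, Good g π lam (perm σ) l := by
  have e1 : perm σ * perm σ = 1 := by rw [← perm_mul, h2, perm_one]
  have e2 : star (perm σ) = perm σ := by
    rw [star_perm, inv_eq_of_mul_eq_one_right h2]
  set p : B Y := (2⁻¹ : ℂ) • (1 + (-1 : ℂ) • perm σ) with hp
  have h3 : IsStarProjection p := by
    constructor
    · change p * p = p
      simp only [hp, smul_mul_smul_comm, add_mul, mul_add, one_mul, mul_one, e1]
      module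
    · change star p = p
      simp [hp, e2]
  have h4 : perm σ = rot p Real.pi * 1 := by
    rw [rot, mul_one, mul_comm Complex.I, Complex.exp_pi_mul_I, hp]
    module
  refine ⟨_, h4 ▸ Good.cons p k Real.pi 1 0 h3 (((Pr.one k).add (h.pr.smul _)).smul _)
    ((Deg.one.add (h.deg.smul _)).smul _) Real.pi_pos.le (Good.one 0 le_rfl)⟩

theorem good_of_NN {σ : Perm Y} (h : σ ∈ NN g π) : ∃ l, Good g π lam (perm σ) l := by
  induction h using Subgroup.closure_induction'' with
  | mem x hx => exact hx.1.elim fun k hk => good_of_inv hk hx.2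
  | inv_mem x hx =>
    rw [inv_eq_of_mul_eq_one_right hx.2]
    exact hx.1.elim fun k hk => good_of_inv hk hx.2
  | one => exact ⟨0, Good.one 0 le_rfl⟩
  | mul x y _ _ h1 h2 =>
    obtain ⟨l, h1⟩ := h1
    obtain ⟨m, h2⟩ := h2
    exact ⟨l + m, h1.mul h2⟩

end Pool.Agent.H596Z.Asd
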