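import Pool.Agent.H596Z.Asd.Good

/-!
A reference connection whose curvature is a product of bounded involutions.
-/

set_option autoImplicit false
set_option linter.unusedSectionVars false

namespace Pool.Agent.H596Z.Asd

open Pool.Agent.H812R3.KP Pool.Agent.H596Z.Roe Equiv

theorem malcev {H : Type} [Group H] (N P Γ : Subgroup H)
    (hN : ∀ g ∈ Γ, ∀ n ∈ N, g * n * g⁻¹ ∈ N) (hP : ∀ g ∈ Γ, ∀ p ∈ P, g * p * g⁻¹ ∈ P)
    (hc : ∀ p ∈ P, ∀ q ∈ P, p * q * p⁻¹ * q⁻¹ ∈ N) {a b a2 b2 : H} (ha : a ∈ Γ) (hb : b ∈ Γ)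
    (ha2 : a2 ∈ Γ) (hb2 : b2 ∈ Γ) (h1 : a2 * a⁻¹ ∈ P) (h2 : b2 * b⁻¹ ∈ P) :
    (b * b2⁻¹ * b) * (a * a2⁻¹ * a) * (b * b2⁻¹ * b)⁻¹ * (a * a2⁻¹ * a)⁻¹ * (a * a2⁻¹ * a)⁻¹ *
      ((b * a * b⁻¹ * a⁻¹ * a⁻¹) * (b2 * a2 * b2⁻¹ * a2⁻¹ * a2⁻¹)⁻¹ *
        (b * a * b⁻¹ * a⁻¹ * a⁻¹))⁻¹ ∈ N := by
  have aux : ∀ x y, y ∈ Γ → y * x⁻¹ ∈ P → y⁻¹ * x ∈ P := by
    intro x y hy h
    have := hP _ (inv_mem hy) _ (inv_mem h)
    rwa [show y⁻¹ * (y * x⁻¹)⁻¹ * y⁻¹⁻¹ = y⁻¹ * x by group] at this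
  let K : Subgroup (H × H × H) :=
    { carrier := {z | z.1 ∈ Γ ∧ z.2.1 ∈ Γ ∧ z.2.1 * z.1⁻¹ ∈ P ∧
        z.2.2 * (z.1 * z.2.1⁻¹ * z.1)⁻¹ ∈ N}
      one_mem' := by simp
      mul_mem' := by
        rintro ⟨x, y, u⟩ ⟨x', y', u'⟩ ⟨hx, hy, hp, hn⟩ ⟨hx', hy', hp', hn'⟩
        refine ⟨mul_mem hx hx', mul_mem hy hy', ?_, ?_⟩
        · have := mul_mem (hP _ hy _ hp') hp
          simp only [Prod.mk_mul_mk] at this ⊢
          rwa [show y * (y' * x'⁻¹) * y⁻¹ * (y * x⁻¹) = y * y' * (x * x')⁻¹ by group] at this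
        · have := mul_mem (mul_mem hn (hN _ (mul_mem (mul_mem hx (inv_mem hy)) hx) _ hn'))
            (hN _ hx _ (hc _ (aux _ _ hy hp) _ (inv_mem hp')))
          simp only [Prod.mk_mul_mk] at this ⊢
          convert this using 1
          group
      inv_mem' := by
        rintro ⟨x, y, u⟩ ⟨hx, hy, hp, hn⟩
        refine ⟨inv_mem hx, inv_mem hy, ?_, ?_⟩
        · simpa using aux _ _ hy hp
        · have := hN _ (inv_mem (mul_mem (mul_mem hx (inv_mem hy)) hx)) _ (inv_mem hn)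
          simp only [Prod.inv_mk] at this ⊢
          convert this using 1
          group }
  have kA : (a, a2, a * a2⁻¹ * a) ∈ K := ⟨ha, ha2, h1, by simp⟩
  have kB : (b, b2, b * b2⁻¹ * b) ∈ K := ⟨hb, hb2, h2, by simp⟩
  exact (mul_mem (mul_mem (mul_mem (mul_mem kB kA) (inv_mem kB)) (inv_mem kA)) (inv_mem kA)).2.2.2

variable {Y G : Type} [Group G] {g : Gauge Y} {π : Y → G}

theorem Bd.mul {k l : ℕ} {d e : G} {σ τ : Perm Y} (h : Bd g π k d σ) (h' : Bd g π l e τ) :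
    Bd g π (k + l) (d * e) (σ * τ) := fun y =>
  ⟨g.trans _ _ _ _ _ (h (τ y)).1 (h' y).1, by rw [Perm.mul_apply, (h _).2, (h' _).2, mul_assoc]⟩

theorem Bd.inv {k : ℕ} {d : G} {σ : Perm Y} (h : Bd g π k d σ) : Bd g π k d⁻¹ σ⁻¹ := by
  intro y
  obtain ⟨z, rfl⟩ := σ.surjective y
  rw [show σ⁻¹ (σ z) = z from σ.symm_apply_apply z]
  exact ⟨g.symm _ _ _ (h z).1, by rw [(h z).2, inv_mul_cancel_left]⟩

theorem Bd.mono {k l : ℕ} {d : G} {σ : Perm Y} (h : Bd g π k d σ) (hk : k ≤ l) :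
    Bd g π l d σ := fun y => ⟨g.mono _ _ _ _ hk (h y).1, (h y).2⟩

theorem Bd.one (k : ℕ) : Bd g π k 1 1 := fun y =>
  ⟨g.mono _ _ _ _ (Nat.zero_le _) (g.refl y), by simp⟩

/-- homogeneous bounded permutations -/
def GG (g : Gauge Y) (π : Y → G) : Subgroup (Perm Y) where
  carrier := {σ | ∃ k d, Bd g π k d σ}
  one_mem' := ⟨0, 1, Bd.one 0⟩
  mul_mem' := fun ⟨_, _, h⟩ ⟨_, _, h'⟩ => ⟨_, _, h.mul h'⟩
  inv_mem' := fun ⟨_, _, h⟩ => ⟨_, _, h.inv⟩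

/-- bounded permutations of trivial degree -/
def PP (g : Gauge Y) (π : Y → G) : Subgroup (Perm Y) where
  carrier := {σ | ∃ k, Bd g π k 1 σ}
  one_mem' := ⟨0, Bd.one 0⟩
  mul_mem' := fun ⟨_, h⟩ ⟨_, h'⟩ => ⟨_, by simpa using h.mul h'⟩
  inv_mem' := fun ⟨_, h⟩ => ⟨_, by simpa using h.inv⟩

theorem PP_le {σ : Perm Y} (h : σ ∈ PP g π) : σ ∈ GG g π := h.elim fun k h => ⟨k, 1, h⟩

theorem PP_conj : ∀ σ ∈ GG g π, ∀ p ∈ PP g π, σ * p * σ⁻¹ ∈ PP g π := by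
  rintro σ ⟨k, d, h⟩ p ⟨l, h'⟩
  exact ⟨_, by simpa using (h.mul h').mul h.inv⟩

theorem NN_conj : ∀ σ ∈ GG g π, ∀ n ∈ NN g π, σ * n * σ⁻¹ ∈ NN g π := by
  intro σ hσ n hn
  induction hn using Subgroup.closure_induction with
  | mem x hx =>
    refine Subgroup.subset_closure ⟨PP_conj σ hσ x hx.1, ?_⟩
    rw [show σ * x * σ⁻¹ * (σ * x * σ⁻¹) = σ * (x * x) * σ⁻¹ by group, hx.2]
    group
  | one => simp
  | mul x y _ _ h1 h2 =>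
    have := mul_mem h1 h2
    rwa [show σ * x * σ⁻¹ * (σ * y * σ⁻¹) = σ * (x * y) * σ⁻¹ by group] at this
  | inv x _ h1 =>
    have := inv_mem h1
    rwa [show (σ * x * σ⁻¹)⁻¹ = σ * x⁻¹ * σ⁻¹ by group] at this

theorem NN_swap {σ s : Perm Y} (hσ : σ ∈ PP g π) (hs : s ∈ PP g π) (h2 : s * s = 1) :
    σ * (s * σ * s)⁻¹ ∈ NN g π := by
  have h1 : s ∈ NN g π := Subgroup.subset_closure ⟨hs, h2⟩
  have := mul_mem (NN_conj σ (PP_le hσ) _ (inv_mem h1)) (inv_mem h1)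
  rwa [show σ * s⁻¹ * σ⁻¹ * s⁻¹ = σ * (s * σ * s)⁻¹ by group] at this

section dbl

variable (τ : Y ⊕ Y ≃ Y)

/-- direct sum of permutations -/
def bx (σ σ' : Perm Y) : Perm Y := τ.permCongr (Equiv.sumCongr σ σ')

theorem bx_inl (σ σ' : Perm Y) (y : Y) : bx τ σ σ' (τ (Sum.inl y)) = τ (Sum.inl (σ y)) := by
  simp [bx]

theorem bx_inr (σ σ' : Perm Y) (y : Y) : bx τ σ σ' (τ (Sum.inr y)) = τ (Sum.inr (σ' y)) := by
  simp [bx]

theorem bx_mul (σ σ' ρ ρ' : Perm Y) : bx τ (σ * ρ) (σ' * ρ') = bx τ σ σ' * bx τ ρ ρ' := by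
  ext y
  obtain ⟨z | z, rfl⟩ := τ.surjective y <;> simp only [Perm.mul_apply, bx_inl, bx_inr]

theorem bx_one : bx τ 1 1 = 1 := by
  ext y
  obtain ⟨z | z, rfl⟩ := τ.surjective y <;> simp only [Perm.one_apply, bx_inl, bx_inr]

/-- the first summand -/
def bl : Perm Y →* Perm Y where
  toFun σ := bx τ σ 1
  map_one' := bx_one τ
  map_mul' σ ρ := by rw [← bx_mul, mul_one]

/-- the second summand -/
def br : Perm Y →* Perm Y where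
  toFun σ := bx τ 1 σ
  map_one' := bx_one τ
  map_mul' σ ρ := by rw [← bx_mul, mul_one]

/-- the diagonal -/
def bd : Perm Y →* Perm Y where
  toFun σ := bx τ σ σ
  map_one' := bx_one τ
  map_mul' σ ρ := by rw [← bx_mul]

/-- exchange of the summands -/
def s2 : Perm Y := τ.permCongr (Equiv.sumComm Y Y)

/-- exchange of the first and third summands -/
def sw3 (Y : Type) : Perm ((Y ⊕ Y) ⊕ Y) :=
  Function.Involutive.toPerm
    (Sum.elim (Sum.elim Sum.inr (fun y => Sum.inl (Sum.inr y))) fun y => Sum.inl (Sum.inl y))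
    (by rintro ((y | y) | y) <;> rfl)

/-- exchange of the first and third summands -/
def s3 : Perm Y := ((τ.sumCongr (Equiv.refl Y)).trans τ).permCongr (sw3 Y)

theorem s2_inl (y : Y) : s2 τ (τ (Sum.inl y)) = τ (Sum.inr y) := by simp [s2]
theorem s2_inr (y : Y) : s2 τ (τ (Sum.inr y)) = τ (Sum.inl y) := by simp [s2]
theorem s3_ll (y : Y) : s3 τ (τ (Sum.inl (τ (Sum.inl y)))) = τ (Sum.inr y) := by
  simp [s3, sw3]
theorem s3_lr (y : Y) : s3 τ (τ (Sum.inl (τ (Sum.inr y)))) = τ (Sum.inl (τ (Sum.inr y))) := by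
  simp [s3, sw3]
theorem s3_r (y : Y) : s3 τ (τ (Sum.inr y)) = τ (Sum.inl (τ (Sum.inl y))) := by
  simp [s3, sw3]

theorem three (p : Y → Prop) (h1 : ∀ y, p (τ (Sum.inl (τ (Sum.inl y)))))
    (h2 : ∀ y, p (τ (Sum.inl (τ (Sum.inr y))))) (h3 : ∀ y, p (τ (Sum.inr y))) (y : Y) : p y := by
  obtain ⟨z | z, rfl⟩ := τ.surjective y
  · obtain ⟨w | w, rfl⟩ := τ.surjective z
    exacts [h1 w, h2 w]
  · exact h3 z

theorem s2_sq : s2 τ * s2 τ = 1 := by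
  ext y
  obtain ⟨z | z, rfl⟩ := τ.surjective y <;>
    simp only [Perm.mul_apply, Perm.one_apply, s2_inl, s2_inr]

theorem s3_sq : s3 τ * s3 τ = 1 := by
  ext y
  induction y using three τ <;> simp only [Perm.mul_apply, Perm.one_apply, s3_ll, s3_lr, s3_r]

theorem s2_conj (σ : Perm Y) : s2 τ * bl τ σ * s2 τ = br τ σ := by
  ext y
  obtain ⟨z | z, rfl⟩ := τ.surjective y <;>
    simp only [bl, br, MonoidHom.coe_mk, OneHom.coe_mk, Perm.mul_apply, Perm.one_apply, s2_inl,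
      s2_inr, bx_inl, bx_inr]

theorem s3_conj (σ : Perm Y) : s3 τ * bl τ (bl τ σ) * s3 τ = br τ σ := by
  ext y
  induction y using three τ <;>
    simp only [bl, br, MonoidHom.coe_mk, OneHom.coe_mk, Perm.mul_apply, Perm.one_apply, s3_ll,
      s3_lr, s3_r, bx_inl, bx_inr]

theorem bd_eq (σ : Perm Y) : bd τ σ = bl τ σ * br τ σ := by
  simp only [bl, br, bd, MonoidHom.coe_mk, OneHom.coe_mk, ← bx_mul, mul_one, one_mul]

theorem bl_br (σ ρ : Perm Y) : bl τ σ * br τ ρ = br τ ρ * bl τ σ := by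
  simp only [bl, br, MonoidHom.coe_mk, OneHom.coe_mk, ← bx_mul, mul_one, one_mul]

theorem bd_conj (σ ρ : Perm Y) : bd τ σ * bl τ ρ * (bd τ σ)⁻¹ = bl τ (σ * ρ * σ⁻¹) := by
  rw [← map_inv]
  simp only [bl, bd, MonoidHom.coe_mk, OneHom.coe_mk, ← bx_mul, mul_one, mul_inv_cancel]

variable {τ} {m : ℕ} (h1 : ∀ y, g.R m (τ (Sum.inl y)) y ∧ π (τ (Sum.inl y)) = π y)
  (h2 : ∀ y, g.R m (τ (Sum.inr y)) y ∧ π (τ (Sum.inr y)) = π y)
include h1 h2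

theorem Bd.bx {k : ℕ} {d : G} {σ σ' : Perm Y} (h : Bd g π k d σ) (h' : Bd g π k d σ') :
    Bd g π (m + k + m) d (bx τ σ σ') := by
  intro y
  obtain ⟨z | z, rfl⟩ := τ.surjective y
  · rw [bx_inl, (h1 _).2, (h1 _).2]
    exact ⟨g.trans _ _ _ _ _ (g.trans _ _ _ _ _ (h1 _).1 (h z).1) (g.symm _ _ _ (h1 z).1), (h z).2⟩
  · rw [bx_inr, (h2 _).2, (h2 _).2]
    exact ⟨g.trans _ _ _ _ _ (g.trans _ _ _ _ _ (h2 _).1 (h' z).1) (g.symm _ _ _ (h2 z).1),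
      (h' z).2⟩

theorem s2_PP : s2 τ ∈ PP g π := by
  refine ⟨m + m, fun y => ?_⟩
  obtain ⟨z | z, rfl⟩ := τ.surjective y
  · rw [s2_inl, (h1 _).2, (h2 _).2, one_mul]
    exact ⟨g.trans _ _ _ _ _ (h2 _).1 (g.symm _ _ _ (h1 z).1), rfl⟩
  · rw [s2_inr, (h1 _).2, (h2 _).2, one_mul]
    exact ⟨g.trans _ _ _ _ _ (h1 _).1 (g.symm _ _ _ (h2 z).1), rfl⟩

theorem s3_PP : s3 τ ∈ PP g π := by
  have h3 : ∀ y, g.R (m + (m + m)) (τ (Sum.inr y)) (τ (Sum.inl (τ (Sum.inl y)))) := fun y =>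
    g.trans _ _ _ _ _ (h2 _).1 (g.symm _ _ _ (g.trans _ _ _ _ _ (h1 _).1 (h1 y).1))
  refine ⟨m + (m + m), fun y => ?_⟩
  induction y using three τ with
  | h1 y =>
    rw [s3_ll, (h1 _).2, (h1 _).2, (h2 _).2, one_mul]
    exact ⟨h3 y, rfl⟩
  | h2 y =>
    rw [s3_lr, one_mul]
    exact ⟨g.mono _ _ _ _ (Nat.zero_le _) (g.refl _), rfl⟩
  | h3 y =>
    rw [s3_r, (h1 _).2, (h1 _).2, (h2 _).2, one_mul]
    exact ⟨g.symm _ _ _ (h3 y), rfl⟩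

theorem bl_PP {σ : Perm Y} (h : σ ∈ PP g π) : bl τ σ ∈ PP g π :=
  h.elim fun k h => ⟨_, h.bx h1 h2 (Bd.one k)⟩

theorem W1 {σ : Perm Y} (h : σ ∈ PP g π) : bl τ σ * (br τ σ)⁻¹ ∈ NN g π := by
  rw [← s2_conj]
  exact NN_swap (bl_PP h1 h2 h) (s2_PP h1 h2) (s2_sq τ)

theorem W2 {σ : Perm Y} (h : σ ∈ PP g π) : bl τ (bl τ σ) * (br τ σ)⁻¹ ∈ NN g π := by
  rw [← s3_conj]
  exact NN_swap (bl_PP h1 h2 (bl_PP h1 h2 h)) (s3_PP h1 h2) (s3_sq τ)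

theorem NN_le : NN g π ≤ (NN g π).comap (bl τ) := by
  refine (Subgroup.closure_le _).2 fun σ hσ => Subgroup.subset_closure ⟨bl_PP h1 h2 hσ.1, ?_⟩
  rw [← map_mul, hσ.2, map_one]

theorem exists_init {t v : G} (htv : v * t * v⁻¹ = t * t) {C : ℕ} {a b : Perm Y}
    (ha : Bd g π C t a) (hb : Bd g π C v b) :
    ∃ (C' : ℕ) (a' b' : Perm Y), Bd g π C' t a' ∧ Bd g π C' v b' ∧
      b' * a' * b'⁻¹ * a'⁻¹ * a'⁻¹ ∈ NN g π := by
  have hP : ∀ {k : ℕ} {a b : Perm Y}, Bd g π k t a → Bd g π k v b →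
      b * a * b⁻¹ * a⁻¹ * a⁻¹ ∈ PP g π := by
    intro k a b ha hb
    have := (((hb.mul ha).mul hb.inv).mul ha.inv).mul ha.inv
    rw [htv, show t * t * t⁻¹ * t⁻¹ = 1 by group] at this
    exact ⟨_, this⟩
  have hN : ∀ σ ∈ GG g π, ∀ n ∈ (NN g π).comap (bl τ), σ * n * σ⁻¹ ∈ (NN g π).comap (bl τ) := by
    rintro σ ⟨k, d, h⟩ n hn
    rw [Subgroup.mem_comap, ← bd_conj]
    exact NN_conj _ ⟨_, _, h.bx h1 h2 h⟩ _ hn
  have hc : ∀ p ∈ PP g π, ∀ q ∈ PP g π, p * q * p⁻¹ * q⁻¹ ∈ (NN g π).comap (bl τ) := by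
    intro p hp q hq
    have h3 := W1 h1 h2 hq
    have h4 := mul_mem (NN_conj _ (PP_le (bl_PP h1 h2 hp)) _ h3) (inv_mem h3)
    rw [Subgroup.mem_comap, map_mul, map_mul, map_mul, map_inv, map_inv]
    convert h4 using 1
    have h5 : (br τ q)⁻¹ * (bl τ p)⁻¹ = (bl τ p)⁻¹ * (br τ q)⁻¹ := by
      rw [← mul_inv_rev, ← mul_inv_rev, bl_br]
    calc bl τ p * bl τ q * (bl τ p)⁻¹ * (bl τ q)⁻¹
        = bl τ p * bl τ q * ((bl τ p)⁻¹ * (br τ q)⁻¹) * br τ q * (bl τ q)⁻¹ := by group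
      _ = _ := by rw [← h5]; group
  have ha2 : Bd g π (m + C + m) t (bd τ a) := ha.bx h1 h2 ha
  have hb2 : Bd g π (m + C + m) v (bd τ b) := hb.bx h1 h2 hb
  have h3 := malcev _ _ _ hN PP_conj hc ⟨_, _, ha⟩ ⟨_, _, hb⟩ ⟨_, _, ha2⟩ ⟨_, _, hb2⟩
    ⟨_, by simpa using ha2.mul ha.inv⟩ ⟨_, by simpa using hb2.mul hb.inv⟩
  have ha3 : Bd g π (C + (m + C + m) + C) t (a * (bd τ a)⁻¹ * a) := by
    simpa using (ha.mul ha2.inv).mul ha
  have hb3 : Bd g π (C + (m + C + m) + C) v (b * (bd τ b)⁻¹ * b) := by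
    simpa using (hb.mul hb2.inv).mul hb
  have h4 := hP ha hb
  have h5 := hP ha3 hb3
  have h6 : bd τ b * bd τ a * (bd τ b)⁻¹ * (bd τ a)⁻¹ * (bd τ a)⁻¹ =
      bd τ (b * a * b⁻¹ * a⁻¹ * a⁻¹) := by simp only [map_mul, map_inv]
  rw [h6] at h3
  generalize b * a * b⁻¹ * a⁻¹ * a⁻¹ = c at h3 h4
  have h7 : c * (bd τ c)⁻¹ * c ∈ (NN g π).comap (bl τ) := by
    have h8 := NN_le h1 h2 (W1 h1 h2 h4)
    have h9 : bl τ c * c⁻¹ ∈ (NN g π).comap (bl τ) := by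
      rw [Subgroup.mem_comap, map_mul, map_inv]
      have := mul_mem (W2 h1 h2 h4) (inv_mem (W1 h1 h2 h4))
      convert this using 1
      group
    have := mul_mem (mul_mem (inv_mem h9) h8) (hN _ (inv_mem (PP_le h4)) _ (inv_mem h9))
    convert this using 1
    rw [bd_eq]
    group
  have h8 := mul_mem h3 h7
  rw [inv_mul_cancel_right, Subgroup.mem_comap] at h8
  generalize a * (bd τ a)⁻¹ * a = a' at ha3 h5 h8
  generalize b * (bd τ b)⁻¹ * b = b' at hb3 h5 h8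
  refine ⟨_, bd τ _, bd τ _, ha3.bx h1 h2 ha3, hb3.bx h1 h2 hb3, ?_⟩
  simp only [← map_mul, ← map_inv]
  rw [bd_eq]
  have := mul_mem (mul_mem h8 (inv_mem (W1 h1 h2 h5))) h8
  convert this using 1
  group

end dbl

end Pool.Agent.H596Z.Asd
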