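import Pool.Agent.H596Z.Asd.Emb
import Pool.Agent.H596Z.Asd.Init
import Pool.Agent.Helper475.Kuhn

/-!
The half plane and the tree.
-/

set_option autoImplicit false
set_option linter.unusedSectionVars false

namespace Pool.Agent.H596Z.Asd

open Pool.Agent.H812R3.KP Pool.Agent.H596Z.Roe Pool.Agent.H596Z.Emb Equiv

section ga

variable {I Z : Type} [DecidableEq I] [Finite I]

/-- the gauge of a transitive action -/
def ga (α : FreeGroup I →* Perm Z) (h : ∀ z z', ∃ w, z = α w z') : Gauge Z where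
  R k z z' := ∃ w : FreeGroup I, w.norm ≤ k ∧ z = α w z'
  refl _ := ⟨1, by simp, by simp⟩
  eq0 z z' := by
    rintro ⟨w, h1, h2⟩
    rw [FreeGroup.norm_eq_zero.1 (Nat.le_zero.1 h1)] at h2
    simpa using h2
  symm k z z' := by
    rintro ⟨w, h1, h2⟩
    refine ⟨w⁻¹, by rwa [FreeGroup.norm_inv_eq], ?_⟩
    rw [h2, map_inv]
    simp
  mono k l z z' hkl := fun ⟨w, h1, h2⟩ => ⟨w, h1.trans hkl, h2⟩
  trans k l x y z := by
    rintro ⟨w, h1, h2⟩ ⟨w', h1', h2'⟩
    refine ⟨w * w', ?_, ?_⟩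
    · have := FreeGroup.norm_mul_le w w'
      omega
    · rw [h2, h2', map_mul, Perm.mul_apply]
  total z z' := (h z z').elim fun w hw => ⟨_, w, le_rfl, hw⟩

theorem ga_ulf (α : FreeGroup I →* Perm Z) (h : ∀ z z', ∃ w, z = α w z') (r : ℝ) :
    ∃ N : ℕ, ∀ z, (@Metric.closedBall Z (ga α h).metric.toPseudoMetricSpace z r).Finite ∧
      (@Metric.closedBall Z (ga α h).metric.toPseudoMetricSpace z r).ncard ≤ N := by
  classical
  refine ⟨(ball I ⌊r⌋₊).card, fun z => ?_⟩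
  have h1 : @Metric.closedBall Z (ga α h).metric.toPseudoMetricSpace z r ⊆
      ((ball I ⌊r⌋₊).image (fun w => α w z) : Finset Z) := by
    intro y hy
    obtain ⟨w, h1, h2⟩ := (ga α h).rel_of_dist_le hy
    exact Finset.mem_coe.2 (Finset.mem_image.2 ⟨w, mem_ball.2 h1, h2.symm⟩)
  refine ⟨(Finset.finite_toSet _).subset h1,
    (Set.ncard_le_ncard h1 (Finset.finite_toSet _)).trans ?_⟩
  rw [Set.ncard_coe_finset]
  exact Finset.card_image_le

theorem ga_induct (α : FreeGroup I →* Perm Z) (p : ℕ → Z → Prop) (z : Z) (h0 : p 0 z)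
    (hm : ∀ k y, p k y → p (k + 1) y)
    (h1 : ∀ k y i, p k y → p (k + 1) (α (FreeGroup.of i) y))
    (h2 : ∀ k y i, p k y → p (k + 1) ((α (FreeGroup.of i))⁻¹ y))
    (w : FreeGroup I) {k : ℕ} (hk : w.norm ≤ k) : p k (α w z) := by
  have key : ∀ L : List (I × Bool), p L.length (α (FreeGroup.mk L) z) := by
    intro L
    induction L with
    | nil => simpa [← FreeGroup.one_eq_mk] using h0
    | cons x L ih =>
      obtain ⟨i, b⟩ := x
      rw [show FreeGroup.mk ((i, b) :: L) = FreeGroup.mk [(i, b)] * FreeGroup.mk L from rfl,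
        map_mul, Perm.mul_apply]
      cases b
      · rw [show FreeGroup.mk [(i, false)] = (FreeGroup.of i)⁻¹ from rfl, map_inv]
        exact h2 _ _ _ ih
      · exact h1 _ _ _ ih
  have h3 := key w.toWord
  rw [FreeGroup.mk_toWord] at h3
  induction hk with
  | refl => exact h3
  | step _ ih => exact hm _ _ ih

end ga

/-! ### the tree -/

/-- the tree -/
abbrev YY : Type := FreeGroup (Fin 4)

/-- the gauge of the tree -/
def gY : Gauge YY := ga (MulAction.toPermHom YY YY) fun z z' => ⟨z * z'⁻¹, by simp⟩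

theorem gY_R {k : ℕ} {y y' : YY} : gY.R k y y' ↔ ∃ w : YY, w.norm ≤ k ∧ y = w * y' := Iff.rfl

theorem asdim_Y (R : ℝ) : ∃ U : Fin (1 + 1) → Set (Set YY),
    (∃ D : ℝ, ∀ i, ∀ A ∈ U i, ∀ a ∈ A, ∀ b ∈ A, @dist YY gY.metric.toDist a b ≤ D) ∧
    (∀ z : YY, ∃ i, ∃ A ∈ U i, z ∈ A) ∧
    (∀ i, ∀ A ∈ U i, ∀ B ∈ U i, A ≠ B → ∀ a ∈ A, ∀ b ∈ B, R < @dist YY gY.metric.toDist a b) := by
  obtain ⟨col, key, h1, h2, h3⟩ := tree_colouring (ι := Fin 4) ⌊R⌋₊
  refine ⟨fun i => Set.range fun κ => {y | col y = i ∧ key y = κ},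
    ⟨((2 * ⌊R⌋₊ + 2 * ⌊R⌋₊ : ℕ) : ℝ), ?_⟩, fun z => ⟨⟨col z, h1 z⟩, _, ⟨key z, rfl⟩, rfl, rfl⟩, ?_⟩
  · rintro i _ ⟨κ, rfl⟩ a ha b hb
    refine gY.dist_le_nat.2 (gY.trans _ _ _ κ _ ⟨_, h2 a, ?_⟩ (gY.symm _ _ _ ⟨_, h2 b, ?_⟩))
    · simp [ha.2]
    · simp [hb.2]
  · rintro i _ ⟨κ, rfl⟩ _ ⟨κ', rfl⟩ hne a ha b hb
    by_contra h
    obtain ⟨w, h4, h5⟩ := gY_R.1 (gY.rel_of_dist_le (not_lt.1 h))
    have h6 := h3 w b h4 (by rw [← h5, ha.1, hb.1])
    rw [← h5, ha.2, hb.2] at h6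
    exact hne (by rw [h6])

/-- the letter put in front -/
def lt' (c : Fin 4) (y : YY) : Fin 4 × Bool :=
  (c, if y.toWord.head? = some (c, false) then false else true)

theorem toWord_lt (c : Fin 4) (y : YY) :
    (FreeGroup.mk [lt' c y] * y).toWord = lt' c y :: y.toWord := by
  have h1 : FreeGroup.mk [lt' c y] * y = FreeGroup.mk (lt' c y :: y.toWord) := by
    conv_lhs => rw [← FreeGroup.mk_toWord (x := y), FreeGroup.mul_mk]
    rw [FreeGroup.mk_toWord]
    rfl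
  rw [h1, FreeGroup.toWord_mk, FreeGroup.reduce.cons, FreeGroup.reduce_toWord]
  unfold lt'
  rcases y.toWord with _ | ⟨⟨i, b⟩, W⟩
  · rfl
  · simp only [List.head?_cons, Option.some.injEq, Prod.mk.injEq]
    rw [if_neg]
    rintro ⟨rfl, h⟩
    cases b <;> simp at h

theorem exists_tau {G : Type} [Group G] (π : YY →* G) (h0 : π (FreeGroup.of 0) = 1)
    (h1 : π (FreeGroup.of 1) = 1) : ∃ τ : YY ⊕ YY ≃ YY,
      (∀ y, gY.R 1 (τ (Sum.inl y)) y ∧ π (τ (Sum.inl y)) = π y) ∧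
      ∀ y, gY.R 1 (τ (Sum.inr y)) y ∧ π (τ (Sum.inr y)) = π y := by
  have key : ∀ c y, π (FreeGroup.of c) = 1 →
      gY.R 1 (FreeGroup.mk [lt' c y] * y) y ∧ π (FreeGroup.mk [lt' c y] * y) = π y := by
    intro c y hc
    refine ⟨gY_R.2 ⟨FreeGroup.mk [lt' c y], FreeGroup.norm_mk_le, rfl⟩, ?_⟩
    rw [map_mul]
    unfold lt'
    split_ifs
    · rw [show FreeGroup.mk [(c, false)] = (FreeGroup.of c)⁻¹ from rfl, map_inv, hc]
      simp
    · rw [show FreeGroup.mk [(c, true)] = FreeGroup.of c from rfl, hc, one_mul]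
  obtain ⟨τ, hτ, h⟩ := Function.Embedding.schroeder_bernstein_of_rel
    (f := Sum.elim (fun y : YY => FreeGroup.mk [lt' 0 y] * y) fun y => FreeGroup.mk [lt' 1 y] * y)
    (g := (Sum.inl : YY → YY ⊕ YY)) (by
      rintro (y | y) (y' | y') h <;>
        have h2 := congrArg FreeGroup.toWord h <;>
        simp only [Sum.elim_inl, Sum.elim_inr, toWord_lt, List.cons.injEq] at h2
      · rw [FreeGroup.toWord_injective h2.2]
      · exact absurd (congrArg Prod.fst h2.1) (by simp [lt'])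
      · exact absurd (congrArg Prod.fst h2.1) (by simp [lt'])
      · rw [FreeGroup.toWord_injective h2.2]) Sum.inl_injective
    (fun s y => gY.R 1 y (Sum.elim id id s) ∧ π y = π (Sum.elim id id s))
    (by
      rintro (y | y)
      exacts [key 0 y h0, key 1 y h1])
    (fun y => ⟨gY.mono _ _ _ _ (by norm_num) (gY.refl y), rfl⟩)
  exact ⟨Equiv.ofBijective τ hτ, fun y => h (Sum.inl y), fun y => h (Sum.inr y)⟩

/-! ### the affine group -/

/-- translation -/
def tq : Perm ℚ := Equiv.addRight 1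

/-- dilation -/
def vq : Perm ℚ := Equiv.mulLeft₀ 2 (by norm_num)

theorem htv : vq * tq * vq⁻¹ = tq * tq := by
  rw [mul_inv_eq_iff_eq_mul]
  ext x
  simp [tq, vq]
  ring

theorem tq_zpow (j : ℤ) (x : ℚ) : (tq ^ j) x = x + j := by
  simp [tq]

theorem vq_pow (k : ℕ) (x : ℚ) : (vq ^ k) x = 2 ^ k * x := by
  induction k with
  | zero => simp
  | succ k ih =>
    rw [pow_succ', Perm.mul_apply, ih]
    simp [vq]
    ring

theorem iota_inj : Function.Injective fun x : ℕ × ℤ => tq ^ x.2 * vq ^ x.1 := by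
  rintro ⟨k, j⟩ ⟨k', j'⟩ h
  have h0 := congrArg (fun σ : Perm ℚ => σ 0) h
  have h1 := congrArg (fun σ : Perm ℚ => σ 1) h
  simp only [Perm.mul_apply, tq_zpow, vq_pow, mul_zero, zero_add, Int.cast_inj, mul_one] at h0 h1
  subst h0
  rw [add_left_inj] at h1
  rw [pow_right_injective₀ (by norm_num) (by norm_num) h1]

/-! ### the half plane -/

/-- vertical moves -/
def sf (e : ℕ) (x : ℕ × ℤ) : ℕ × ℤ :=
  if x.1 % 2 = e % 2 then (x.1 + 1, 2 * x.2)
  else if 1 ≤ x.1 ∧ x.2 % 2 = 0 then (x.1 - 1, x.2 / 2) else x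

theorem sf_inv (e : ℕ) : Function.Involutive (sf e) := by
  rintro ⟨k, j⟩
  unfold sf
  simp only
  split_ifs <;> (try simp only at *) <;> (try ext) <;> (try simp only) <;> omega

/-- the action on the half plane -/
def αX : FreeGroup (Fin 3) →* Perm (ℕ × ℤ) :=
  FreeGroup.lift ![(Equiv.refl ℕ).prodCongr (Equiv.addRight 1), (sf_inv 0).toPerm,
    (sf_inv 1).toPerm]

theorem αX_0 (x : ℕ × ℤ) : αX (FreeGroup.of 0) x = (x.1, x.2 + 1) := by
  simp [αX, Prod.map]

theorem αX_0' (x : ℕ × ℤ) : (αX (FreeGroup.of 0))⁻¹ x = (x.1, x.2 - 1) := by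
  rw [Perm.inv_eq_iff_eq, αX_0]
  simp

theorem αX_s (i : Fin 3) (hi : i ≠ 0) : ∃ e, (∀ x, αX (FreeGroup.of i) x = sf e x) ∧
    ∀ x, (αX (FreeGroup.of i))⁻¹ x = sf e x := by
  have key : ∀ e, (∀ x, αX (FreeGroup.of i) x = sf e x) →
      ∀ x, (αX (FreeGroup.of i))⁻¹ x = sf e x := by
    intro e h x
    rw [Perm.inv_eq_iff_eq, h, sf_inv]
  fin_cases i
  · exact absurd rfl hi
  · exact ⟨0, fun x => by simp [αX], key 0 fun x => by simp [αX]⟩
  · exact ⟨1, fun x => by simp [αX], key 1 fun x => by simp [αX]⟩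

theorem up (k : ℕ) (j : ℤ) : ∃ i, (k + 1, 2 * j) = αX (FreeGroup.of i) (k, j) := by
  rcases Nat.mod_two_eq_zero_or_one k with h | h
  · exact ⟨1, by simp [αX, sf, h]⟩
  · exact ⟨2, by simp [αX, sf, h]⟩

theorem αX_trans (z z' : ℕ × ℤ) : ∃ w, z = αX w z' := by
  have key : ∀ z : ℕ × ℤ, ∃ w, z = αX w (0, 0) := by
    rintro ⟨k, j⟩
    induction j using Int.induction_on with
    | zero =>
      induction k with
      | zero => exact ⟨1, by simp⟩
      | succ k ih =>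
        obtain ⟨w, hw⟩ := ih
        obtain ⟨i, hi⟩ := up k 0
        exact ⟨FreeGroup.of i * w, by rw [map_mul, Perm.mul_apply, ← hw, ← hi, mul_zero]⟩
    | succ n ih =>
      obtain ⟨w, hw⟩ := ih
      exact ⟨FreeGroup.of 0 * w, by rw [map_mul, Perm.mul_apply, ← hw, αX_0]⟩
    | pred n ih =>
      obtain ⟨w, hw⟩ := ih
      exact ⟨(FreeGroup.of 0)⁻¹ * w, by rw [map_mul, Perm.mul_apply, ← hw, map_inv, αX_0']⟩
  obtain ⟨w, hw⟩ := key z
  obtain ⟨w', hw'⟩ := key z'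
  exact ⟨w * w'⁻¹, by rw [hw', map_mul, map_inv, Perm.mul_apply, hw]; simp⟩

/-- the gauge of the half plane -/
def gX : Gauge (ℕ × ℤ) := ga αX αX_trans

theorem gX_bound {k : ℕ} {x x' : ℕ × ℤ} (h : gX.R k x x') (h0 : x'.2 = 0) :
    x.2.natAbs + 1 ≤ 2 ^ k := by
  obtain ⟨w, h1, rfl⟩ := h
  refine ga_induct αX (fun k y => y.2.natAbs + 1 ≤ 2 ^ k) x' (by simp [h0]) ?_ ?_ ?_ w h1
  · intro k y h
    omega
  · intro k y i h
    by_cases hi : i = 0
    · rw [hi, αX_0]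
      simp only
      omega
    · obtain ⟨e, he, -⟩ := αX_s i hi
      rw [he]
      unfold sf
      split_ifs <;> (try simp only) <;> omega
  · intro k y i h
    by_cases hi : i = 0
    · rw [hi, αX_0']
      simp only
      omega
    · obtain ⟨e, -, he⟩ := αX_s i hi
      rw [he]
      unfold sf
      split_ifs <;> (try simp only) <;> omega

theorem gX_level {k : ℕ} {x x' : ℕ × ℤ} (h : gX.R k x x') : x.1 ≤ x'.1 + k := by
  obtain ⟨w, h1, rfl⟩ := h
  refine ga_induct αX (fun k y => y.1 ≤ x'.1 + k) x' (by simp) ?_ ?_ ?_ w h1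
  · intro k y h
    omega
  · intro k y i h
    by_cases hi : i = 0
    · rw [hi, αX_0]
      simp only
      omega
    · obtain ⟨e, he, -⟩ := αX_s i hi
      rw [he]
      unfold sf
      split_ifs <;> (try simp only) <;> omega
  · intro k y i h
    by_cases hi : i = 0
    · rw [hi, αX_0']
      simp only
      omega
    · obtain ⟨e, -, he⟩ := αX_s i hi
      rw [he]
      unfold sf
      split_ifs <;> (try simp only) <;> omega

theorem gX_hor (k : ℕ) {j j' : ℤ} (h : j' = j ∨ j' = j + 1) : gX.R 1 (k, j') (k, j) := by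
  rcases h with rfl | rfl
  · exact gX.mono _ _ _ _ (by norm_num) (gX.refl _)
  · exact ⟨FreeGroup.of 0, by simp, by rw [αX_0]⟩

theorem gX_ver (k : ℕ) (j : ℤ) : gX.R 2 (k + 1, j) (k, j / 2) := by
  obtain ⟨i, hi⟩ := up k (j / 2)
  exact gX.trans 1 1 _ _ _ (gX_hor _ (by omega)) ⟨FreeGroup.of i, by simp, hi⟩

theorem asdim_X (U : Fin (1 + 1) → Set (Set (ℕ × ℤ)))
    (h1 : ∃ D : ℝ, ∀ i, ∀ A ∈ U i, ∀ a ∈ A, ∀ b ∈ A, @dist _ gX.metric.toDist a b ≤ D)
    (h2 : ∀ z, ∃ i, ∃ A ∈ U i, z ∈ A)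
    (h3 : ∀ i, ∀ A ∈ U i, ∀ B ∈ U i, A ≠ B → ∀ a ∈ A, ∀ b ∈ B,
      (6 : ℝ) < @dist _ gX.metric.toDist a b) : False := by
  classical
  obtain ⟨D', hD'⟩ := h1
  choose c u hc hu using h2
  set D := ⌊D'⌋₊ with hD
  have hd : ∀ z a, a ∈ u z → gX.R D a z := fun z a ha =>
    gX.rel_of_dist_le (hD' _ _ (hc z) _ ha _ (hu z))
  let P : (ℕ → ℕ) → ℕ × ℤ := fun x =>
    (D + 1 - min (x 1) (D + 1), ((x 0 / 2 ^ min (x 1) (D + 1) : ℕ) : ℤ))
  have hP : ∀ x y : ℕ → ℕ, (∀ i, i < 2 → y i = x i ∨ y i = x i + 1) → gX.R 3 (P y) (P x) := by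
    intro x y h
    have e1 : gX.R 1 (P y)
        (D + 1 - min (y 1) (D + 1), ((x 0 / 2 ^ min (y 1) (D + 1) : ℕ) : ℤ)) := by
      apply gX_hor
      rcases h 0 (by norm_num) with h4 | h4
      · left; rw [h4]
      · rw [h4, Nat.succ_div]
        split_ifs
        · right; push_cast; rfl
        · left; rfl
    refine gX.trans 1 2 _ _ _ e1 ?_
    by_cases h4 : min (y 1) (D + 1) = min (x 1) (D + 1)
    · rw [h4]
      exact gX.mono _ _ _ _ (by norm_num) (gX.refl _)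
    · have h5 := h 1 (by norm_num)
      have h6 : min (y 1) (D + 1) = min (x 1) (D + 1) + 1 := by omega
      have h7 : D + 1 - min (x 1) (D + 1) = D + 1 - min (y 1) (D + 1) + 1 := by omega
      simp only [P]
      rw [h7]
      refine gX.symm _ _ _ ?_
      convert gX_ver _ _ using 2
      rw [h6, pow_succ, ← Nat.div_div_eq_div_mul]
      push_cast
      rfl
  let L : Set (ℕ × ℤ) → ℕ := fun A =>
    if h : ∃ i, i < 2 ∧ ¬ ∃ z : ℕ → ℕ, z i = 0 ∧ P z ∈ A then Nat.find h else 2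
  have L_le : ∀ j, L j ≤ 2 := by
    intro j
    simp only [L]
    split_ifs with h
    · exact (Nat.find_spec h).1.le
    · exact le_rfl
  obtain ⟨x, -, hall⟩ := Pool.Agent.Helper475.Kuhn.kuhn 2 (2 ^ (D + (D + 1)))
    (fun x => L (u (P x))) (fun x _ => L_le _)
    (by
      intro i hi x _ hxi hL
      simp only [L] at hL
      split_ifs at hL with h
      · have := (Nat.find_spec h).2
        rw [hL] at this
        exact this ⟨x, hxi, hu _⟩
      · omega)
    (by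
      intro i hi x _ hxi
      have hC : i < 2 ∧ ¬ ∃ z : ℕ → ℕ, z i = 0 ∧ P z ∈ u (P x) := by
        refine ⟨hi, ?_⟩
        rintro ⟨z, hz, hzU⟩
        have h4 := hd _ _ hzU
        interval_cases i
        · have h5 := gX_bound (gX.symm _ _ _ h4) (by simp [P, hz])
          simp only [P, hxi, Int.natAbs_natCast] at h5
          rw [Nat.pow_div (by omega) (by norm_num)] at h5
          have : 2 ^ D ≤ 2 ^ (D + (D + 1) - min (x 1) (D + 1)) :=
            Nat.pow_le_pow_right (by norm_num) (by omega)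
          omega
        · have h5 := gX_level h4
          have h6 : D + (D + 1) < 2 ^ (D + (D + 1)) := Nat.lt_two_pow_self
          simp only [P, hxi, hz] at h5
          omega
      simp only [L]
      rw [dif_pos ⟨i, hC⟩]
      exact Nat.find_min' _ hC)
  choose y hy _ hlam using fun j : Fin 3 => hall j (Nat.lt_succ_iff.1 j.2)
  obtain ⟨j, j', hne, hcc⟩ := Fintype.exists_ne_map_eq_of_card_lt (fun j : Fin 3 => c (P (y j)))
    (by simp)
  have h4 := h3 _ _ (hc (P (y j))) _ (hcc ▸ hc (P (y j'))) (fun h => by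
    have h5 := hlam j
    have h6 := hlam j'
    rw [h] at h5
    exact hne (Fin.ext (h5.symm.trans h6))) _ (hu _) _ (hu _)
  have h5 := gX.dist_le_nat.2 (gX.trans 3 3 _ _ _ (hP x _ (hy j)) (gX.symm _ _ _ (hP x _ (hy j'))))
  norm_num at h5
  linarith

theorem main : ∃ D : Triv (ℕ × ℤ) YY (Perm ℚ), ∀ a ∈ @UR _ gX.metric, D.Φ a ∈ @UR _ gY.metric := by
  let π : YY →* Perm ℚ := FreeGroup.lift ![1, 1, tq, vq]
  obtain ⟨τ, h1, h2⟩ := exists_tau π (by simp [π]) (by simp [π])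
  have h3 : ∀ i, Bd gY π 1 (π (FreeGroup.of i)) (Equiv.mulLeft (FreeGroup.of i)) := fun i y =>
    ⟨⟨FreeGroup.of i, by simp, rfl⟩, by simp⟩
  obtain ⟨C, a, b, ha, hb, hc⟩ := exists_init h1 h2 htv (by simpa [π] using h3 2)
    (by simpa [π] using h3 3)
  obtain ⟨J, hJ1, hJ2, hJ3⟩ := exists_flat htv ha hb hc
  let D : Triv (ℕ × ℤ) YY (Perm ℚ) :=
    { π := π
      ι := fun x => tq ^ x.2 * vq ^ x.1
      κ := Function.invFun fun x : ℕ × ℤ => tq ^ x.2 * vq ^ x.1
      inv := Function.leftInverse_invFun iota_inj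
      J := J
      hU := fun x => (hJ1 x).1
      hD := fun x => (hJ1 x).2
      y0 := 1
      hy0 := map_one π }
  refine ⟨D, fun T hT => D.Φ_UR gY gX αX (fun k x x' h => h) (fun i => ?_) hT⟩
  by_cases hi : i = 0
  · simpa only [hi, αX_0] using hJ3
  · obtain ⟨e, he, -⟩ := αX_s i hi
    intro ε hε
    refine ⟨C, fun x => ⟨_, ?_, by rw [sub_self, norm_zero]; exact hε.le⟩⟩
    obtain ⟨k, j⟩ := x
    change Pr gY C (J (αX (FreeGroup.of i) (k, j)) * star (J (k, j)))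
    rw [he]
    unfold sf
    split_ifs with h4 h5
    · rw [hJ2, mul_assoc, (hJ1 _).1.2, mul_one]
      exact hb.pr
    · have h6 : (k, j) = (k - 1 + 1, 2 * (j / 2)) := by
        simp only at h5
        ext <;> simp only <;> omega
      simp only
      conv => enter [3, 2]; rw [h6]
      rw [hJ2, star_mul, ← mul_assoc, (hJ1 _).1.2, one_mul]
      exact hb.pr.star
    · rw [(hJ1 _).1.2]
      exact Pr.one C

end Pool.Agent.H596Z.Asd
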